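import Mathlib

/-! Mean value inequality on discs. -/

set_option autoImplicit false

namespace Pool.Agent.Helper14.FN

open MeasureTheory Metric Set Real
open scoped ENNReal

theorem circle_le (h : ℂ → ℂ) (hh : Differentiable ℂ h) (w : ℂ) (r : ℝ) :
    ENNReal.ofReal (2 * π) * ‖h w‖ₑ ≤ ∫⁻ θ in Ioo (-π) π, ‖h (circleMap w r θ)‖ₑ := by
  have h1 := (hh.diffContOnCl (s := ball w |r|)).circleAverage
  rw [circleAverage_def] at h1
  have hper : Function.Periodic (fun θ => h (circleMap w r θ)) (2 * π) := fun θ => by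
    simp only [(periodic_circleMap w r) θ]
  have h2 := hper.intervalIntegral_add_eq (-π) 0
  rw [zero_add, show -π + 2 * π = π by ring] at h2
  have hpi := Real.pi_pos
  have h3 : ∫ θ in Ioo (-π) π, h (circleMap w r θ) = (2 * π : ℝ) • h w := by
    rw [← h1, smul_smul, mul_inv_cancel₀ (by positivity), one_smul, ← h2,
      intervalIntegral.integral_of_le (by linarith), integral_Ioc_eq_integral_Ioo]
  have h4 : ‖∫ θ in Ioo (-π) π, h (circleMap w r θ)‖ₑ ≤ ∫⁻ θ in Ioo (-π) π, ‖h (circleMap w r θ)‖ₑ :=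
    enorm_integral_le_lintegral_enorm _
  rw [h3, enorm_smul, Real.enorm_of_nonneg (by positivity)] at h4
  exact h4

theorem mv (h : ℂ → ℂ) (hh : Differentiable ℂ h) (w : ℂ) (ρ : ℝ) (hρ : 0 ≤ ρ) :
    ENNReal.ofReal (π * ρ ^ 2) * ‖h w‖ₑ ≤ ∫⁻ z in ball w ρ, ‖h z‖ₑ := by
  have hc : Continuous h := hh.continuous
  rw [← lintegral_indicator measurableSet_ball]
  rw [← lintegral_add_left_eq_self _ w]
  rw [← Complex.lintegral_comp_polarCoord_symm]
  have hsub : Ioo 0 ρ ×ˢ Ioo (-π) π ⊆ polarCoord.target := by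
    rw [polarCoord_target]
    exact prod_mono Ioo_subset_Ioi_self subset_rfl
  refine le_trans ?_ (lintegral_mono_set hsub)
  have h1 : ∀ p ∈ Ioo 0 ρ ×ˢ Ioo (-π) π, ENNReal.ofReal p.1 •
      (ball w ρ).indicator (fun z => ‖h z‖ₑ) (w + Complex.polarCoord.symm p) =
      ENNReal.ofReal p.1 * ‖h (circleMap w p.1 p.2)‖ₑ := by
    rintro ⟨r, θ⟩ ⟨hr, -⟩
    have e1 : w + Complex.polarCoord.symm (r, θ) = circleMap w r θ := by
      rw [Complex.polarCoord_symm_apply, circleMap, Complex.exp_mul_I, ← Complex.ofReal_cos,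
        ← Complex.ofReal_sin]
    have e2 : circleMap w r θ ∈ ball w ρ := by
      rw [mem_ball, dist_eq_norm, circleMap_sub_center, norm_circleMap_zero, abs_of_pos hr.1]
      exact hr.2
    simp only [e1, indicator_of_mem e2, smul_eq_mul]
  rw [setLIntegral_congr_fun (measurableSet_Ioo.prod measurableSet_Ioo) h1]
  have hcm : Continuous fun p : ℝ × ℝ => circleMap w p.1 p.2 := by
    unfold circleMap
    fun_prop
  have hmeas : Measurable fun p : ℝ × ℝ =>
      ENNReal.ofReal p.1 * ‖h (circleMap w p.1 p.2)‖ₑ :=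
    (ENNReal.measurable_ofReal.comp measurable_fst).mul (hc.comp hcm).measurable.enorm
  rw [Measure.volume_eq_prod, ← Measure.prod_restrict, lintegral_prod _ hmeas.aemeasurable]
  have h2 : ∫⁻ r in Ioo 0 ρ, ENNReal.ofReal r = ENNReal.ofReal (ρ ^ 2 / 2) := by
    have e1 : ∫ r in Ioo 0 ρ, r = ρ ^ 2 / 2 := by
      rw [← integral_Ioc_eq_integral_Ioo, ← intervalIntegral.integral_of_le hρ, integral_id]
      ring
    rw [← e1, ofReal_integral_eq_lintegral_ofReal]
    · exact (continuous_id.integrableOn_Icc (a := 0) (b := ρ)).mono_set Ioo_subset_Icc_self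
    · refine (ae_restrict_iff' measurableSet_Ioo).2 (Filter.Eventually.of_forall fun r hr => ?_)
      exact hr.1.le
  have hpi := Real.pi_pos
  calc ENNReal.ofReal (π * ρ ^ 2) * ‖h w‖ₑ
      = (∫⁻ r in Ioo 0 ρ, ENNReal.ofReal r) * (ENNReal.ofReal (2 * π) * ‖h w‖ₑ) := by
        rw [h2, ← mul_assoc, ← ENNReal.ofReal_mul (by positivity)]
        congr 2
        ring
    _ = ∫⁻ r in Ioo 0 ρ, ENNReal.ofReal r * (ENNReal.ofReal (2 * π) * ‖h w‖ₑ) := by
        rw [lintegral_mul_const _ ENNReal.measurable_ofReal]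
    _ ≤ ∫⁻ r in Ioo 0 ρ, ∫⁻ θ in Ioo (-π) π, ENNReal.ofReal r * ‖h (circleMap w r θ)‖ₑ := by
        refine lintegral_mono fun r => ?_
        have hm : Measurable fun θ => ‖h (circleMap w r θ)‖ₑ :=
          (hc.comp (continuous_circleMap w r)).measurable.enorm
        rw [lintegral_const_mul _ hm]
        gcongr
        exact circle_le h hh w r

/-- The mean value inequality for the square of a holomorphic function. -/
theorem mvR (g : ℂ → ℂ) (hg : Differentiable ℂ g) (w : ℂ) (ρ : ℝ) (hρ : 0 ≤ ρ) :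
    π * ρ ^ 2 * ‖g w‖ ^ 2 ≤ ∫ z in ball w ρ, ‖g z‖ ^ 2 := by
  have hc : Continuous fun z => g z ^ 2 := hg.continuous.pow 2
  have hi : IntegrableOn (fun z => g z ^ 2) (ball w ρ) :=
    (hc.continuousOn.integrableOn_compact (isCompact_closedBall w ρ)).mono_set
      ball_subset_closedBall
  have h1 := mv (fun z => g z ^ 2) (hg.pow 2) w ρ hρ
  rw [← ofReal_integral_norm_eq_lintegral_enorm hi] at h1
  have hpi := Real.pi_pos
  rw [← ofReal_norm, ← ENNReal.ofReal_mul (by positivity)] at h1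
  rw [ENNReal.ofReal_le_ofReal_iff (integral_nonneg fun z => norm_nonneg _)] at h1
  simpa [norm_pow] using h1

end Pool.Agent.Helper14.FN
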