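import Pool.Agent.Helper25.FN.Spec
import Pool.Agent.Helper14.FN.MV

/-! Part DISC. -/

set_option autoImplicit false

namespace Pool.Agent.Helper14.FN.DISC

open MeasureTheory Metric Set
open Pool.Agent.Helper14.FN

theorem intOn {F : ℂ → ℝ} (hF : Continuous F) {S : Set ℂ} {R : ℝ} (hS : S ⊆ ball 0 R) :
    IntegrableOn F S :=
  (hF.continuousOn.integrableOn_compact (isCompact_closedBall (0 : ℂ) R)).mono_set
    (hS.trans ball_subset_closedBall)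

/-- The mass in a small disc is controlled by the mass outside of it. -/
theorem absorb (g : ℂ → ℂ) (hg : Differentiable ℂ g) (L : ℝ) (hL : 0 < L) (z₀ : ℂ) :
    ∫ ζ in ball (0 : ℂ) L, ‖g ζ‖ ^ 2 ≤
      2 * ∫ ζ in ball (0 : ℂ) (2 * L) \ ball z₀ (L / 10), ‖g ζ‖ ^ 2 := by
  have hF : Continuous fun ζ => ‖g ζ‖ ^ 2 := hg.continuous.norm.pow 2
  have hnn : ∀ ζ, 0 ≤ ‖g ζ‖ ^ 2 := fun ζ => sq_nonneg _
  set D := ball z₀ (L / 10) with hD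
  set B := ball (0 : ℂ) (2 * L) with hB
  have hIB : IntegrableOn (fun ζ => ‖g ζ‖ ^ 2) B := intOn hF subset_rfl
  have hIBD : IntegrableOn (fun ζ => ‖g ζ‖ ^ 2) (B \ D) := intOn hF diff_subset
  have hpos : 0 ≤ ∫ ζ in B \ D, ‖g ζ‖ ^ 2 := integral_nonneg hnn
  have hbB : ball (0 : ℂ) L ⊆ B := ball_subset_ball (by linarith)
  by_cases hdis : Disjoint (ball (0 : ℂ) L) D
  · have h1 : ball (0 : ℂ) L ⊆ B \ D := fun z hz => ⟨hbB hz, fun h => disjoint_left.1 hdis hz h⟩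
    have h2 : ∫ ζ in ball (0 : ℂ) L, ‖g ζ‖ ^ 2 ≤ ∫ ζ in B \ D, ‖g ζ‖ ^ 2 :=
      setIntegral_mono_set hIBD (Filter.Eventually.of_forall hnn) h1.eventuallyLE
    linarith
  · rw [not_disjoint_iff] at hdis
    obtain ⟨u, hu1, hu2⟩ := hdis
    rw [mem_ball, dist_zero_right] at hu1
    rw [hD, mem_ball, dist_eq_norm] at hu2
    have hz₀ : ‖z₀‖ < 11 / 10 * L := by
      have : ‖z₀‖ ≤ ‖u‖ + ‖u - z₀‖ := by
        calc ‖z₀‖ = ‖u - (u - z₀)‖ := by congr 1; ring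
          _ ≤ _ := norm_sub_le _ _
      linarith
    have hDB : D ⊆ B := fun w hw => by
      rw [hD, mem_ball, dist_eq_norm] at hw
      rw [hB, mem_ball, dist_zero_right]
      calc ‖w‖ = ‖(w - z₀) + z₀‖ := by congr 1; ring
        _ ≤ ‖w - z₀‖ + ‖z₀‖ := norm_add_le _ _
        _ < 2 * L := by linarith
    have hID : IntegrableOn (fun ζ => ‖g ζ‖ ^ 2) D := intOn hF hDB
    have hpi := Real.pi_pos
    have hpt : ∀ w ∈ D, ‖g w‖ ^ 2 ≤ (Real.pi * (4 / 5 * L) ^ 2)⁻¹ * ∫ ζ in B, ‖g ζ‖ ^ 2 := by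
      intro w hw
      have h1 := mvR g hg w (4 / 5 * L) (by positivity)
      have h2 : ball w (4 / 5 * L) ⊆ B := fun z hz => by
        rw [mem_ball, dist_eq_norm] at hz
        rw [hD, mem_ball, dist_eq_norm] at hw
        rw [hB, mem_ball, dist_zero_right]
        calc ‖z‖ = ‖(z - w) + (w - z₀) + z₀‖ := by congr 1; ring
          _ ≤ ‖z - w‖ + ‖w - z₀‖ + ‖z₀‖ := norm_add₃_le
          _ < 2 * L := by linarith
      have h3 : ∫ ζ in ball w (4 / 5 * L), ‖g ζ‖ ^ 2 ≤ ∫ ζ in B, ‖g ζ‖ ^ 2 :=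
        setIntegral_mono_set hIB (Filter.Eventually.of_forall hnn) h2.eventuallyLE
      rw [le_inv_mul_iff₀ (by positivity)]
      exact h1.trans h3
    have hvol : (volume.real D) = Real.pi * (L / 10) ^ 2 := by
      rw [measureReal_def, hD, Complex.volume_ball, ENNReal.toReal_mul, ENNReal.toReal_pow,
        ENNReal.toReal_ofReal (by positivity)]
      simp
      ring
    have h4 : ∫ ζ in D, ‖g ζ‖ ^ 2 ≤
        (Real.pi * (L / 10) ^ 2) * ((Real.pi * (4 / 5 * L) ^ 2)⁻¹ * ∫ ζ in B, ‖g ζ‖ ^ 2) := by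
      have h5 : ∫ ζ in D, ‖g ζ‖ ^ 2 ≤
          ∫ _ζ in D, (Real.pi * (4 / 5 * L) ^ 2)⁻¹ * ∫ ζ in B, ‖g ζ‖ ^ 2 :=
        setIntegral_mono_on hID (integrableOn_const (by
          rw [hD, Complex.volume_ball]
          exact ENNReal.mul_ne_top (ENNReal.pow_ne_top ENNReal.ofReal_ne_top) ENNReal.coe_ne_top))
          measurableSet_ball hpt
      rwa [setIntegral_const, hvol, smul_eq_mul] at h5
    have h6 : ∫ ζ in B, ‖g ζ‖ ^ 2 = (∫ ζ in D, ‖g ζ‖ ^ 2) + ∫ ζ in B \ D, ‖g ζ‖ ^ 2 := by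
      rw [← setIntegral_union disjoint_sdiff_right (measurableSet_ball.diff measurableSet_ball) hID
        hIBD, union_diff_cancel hDB]
    have h7 : (Real.pi * (L / 10) ^ 2) * ((Real.pi * (4 / 5 * L) ^ 2)⁻¹ * ∫ ζ in B, ‖g ζ‖ ^ 2) =
        1 / 64 * ∫ ζ in B, ‖g ζ‖ ^ 2 := by
      field_simp
      ring
    have h8 : ∫ ζ in ball (0 : ℂ) L, ‖g ζ‖ ^ 2 ≤ ∫ ζ in B, ‖g ζ‖ ^ 2 :=
      setIntegral_mono_set hIB (Filter.Eventually.of_forall hnn) hbB.eventuallyLE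
    rw [h7] at h4
    have h9 : 0 ≤ ∫ ζ in D, ‖g ζ‖ ^ 2 := integral_nonneg hnn
    linarith

theorem main : Pool.Agent.Helper25.FN.S_DISC := by
  refine ⟨800, by norm_num, fun L g q a hL ha hg hq h => ?_⟩
  have hq2 : Continuous fun ζ => ‖g ζ‖ ^ 2 * ‖q ζ‖ ^ 2 :=
    (hg.continuous.norm.pow 2).mul (hq.norm.pow 2)
  have hF : Continuous fun ζ => ‖g ζ‖ ^ 2 := hg.continuous.norm.pow 2
  have ha' : 0 < ‖a‖ := norm_pos_iff.2 ha
  have h1 := absorb g hg L hL (-(q 0) / a)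
  set D := ball (-(q 0) / a) (L / 10) with hD
  set B := ball (0 : ℂ) (2 * L) with hB
  have h2 : ∀ ζ ∈ B \ D, (‖a‖ * L / 20) ^ 2 * ‖g ζ‖ ^ 2 ≤ ‖g ζ‖ ^ 2 * ‖q ζ‖ ^ 2 := by
    rintro ζ ⟨hζ, hζD⟩
    rw [hB, mem_ball, dist_zero_right] at hζ
    rw [hD, mem_ball, dist_eq_norm, not_lt] at hζD
    have e1 := h ζ hζ.le
    have e2 : ‖a‖ * (L / 10) ≤ ‖q 0 + a * ζ‖ := by
      have : q 0 + a * ζ = a * (ζ - -(q 0) / a) := by
        field_simp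
        ring
      rw [this, norm_mul]
      gcongr
    have e3 : ‖a‖ * L / 20 ≤ ‖q ζ‖ := by
      have e4 : ‖q 0 + a * ζ‖ ≤ ‖q ζ‖ + ‖q ζ - q 0 - a * ζ‖ := by
        calc ‖q 0 + a * ζ‖ = ‖q ζ - (q ζ - q 0 - a * ζ)‖ := by congr 1; ring
          _ ≤ _ := norm_sub_le _ _
      have e5 : ‖a‖ * (L / 10) = 2 * (‖a‖ * L / 20) := by ring
      linarith
    rw [mul_comm]
    have : (‖a‖ * L / 20) ^ 2 ≤ ‖q ζ‖ ^ 2 := by gcongr
    gcongr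
  have h3 : (‖a‖ * L / 20) ^ 2 * ∫ ζ in B \ D, ‖g ζ‖ ^ 2 ≤ ∫ ζ in B, ‖g ζ‖ ^ 2 * ‖q ζ‖ ^ 2 := by
    rw [← integral_const_mul]
    refine (setIntegral_mono_on ((intOn hF diff_subset).const_mul _) (intOn hq2 diff_subset)
      (measurableSet_ball.diff measurableSet_ball) h2).trans ?_
    exact setIntegral_mono_set (intOn hq2 subset_rfl)
      (Filter.Eventually.of_forall fun ζ => by positivity) diff_subset.eventuallyLE
  have h4 : L ^ 2 * ‖a‖ ^ 2 * ∫ ζ in ball (0 : ℂ) L, ‖g ζ‖ ^ 2 ≤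
      L ^ 2 * ‖a‖ ^ 2 * (2 * ∫ ζ in B \ D, ‖g ζ‖ ^ 2) := by gcongr
  refine h4.trans ?_
  calc L ^ 2 * ‖a‖ ^ 2 * (2 * ∫ ζ in B \ D, ‖g ζ‖ ^ 2)
      = 800 * ((‖a‖ * L / 20) ^ 2 * ∫ ζ in B \ D, ‖g ζ‖ ^ 2) := by ring
    _ ≤ 800 * ∫ ζ in B, ‖g ζ‖ ^ 2 * ‖q ζ‖ ^ 2 := by gcongr

end Pool.Agent.Helper14.FN.DISC
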