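import Pool.Agent.Helper25.FN.Spec
import Pool.Agent.Helper34.FN.Base

/-! Part GAIN: the oscillation of the weight, and the covering by large coefficients. -/

set_option autoImplicit false

namespace Pool.Agent.Helper14.FN

open Pool.Agent.Helper25.FN
open scoped ContDiff

theorem OSC (n : ℕ) (Φ : V n → ℝ) (hΦ : ContDiff ℝ ∞ Φ) (hs : Sym 1 (fun z => (Φ z : ℂ))) (L : ℝ)
    (hL : 0 < L) : ∃ R : ℝ, ∀ (z : V n) (j : Fin n) (s : ℂ), R ≤ nm z → ‖s‖ ≤ L →
      |Φ (z + Pi.single j s) - Φ z - fderiv ℝ Φ z (Pi.single j s)| ≤ 1 / 4 := by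
  obtain ⟨C, hC⟩ := hs.2 2
  have hC0 : 0 ≤ |C| := abs_nonneg C
  refine ⟨L + 4 * |C| * L ^ 2 + 1, fun z j s hz hsL => ?_⟩
  set v : V n := Pi.single j s with hv
  have hvn : ‖v‖ ≤ L := by rw [hv, Pi.norm_single]; exact hsL
  have hR1 : 0 < 1 + nm z - L := by nlinarith [mul_nonneg hC0 (sq_nonneg L)]
  set K : ℝ := |C| / (1 + nm z - L) with hK
  have hK0 : 0 ≤ K := div_nonneg hC0 hR1.le
  have h2 : ∀ y ∈ segment ℝ z (z + v), ‖fderiv ℝ (fderiv ℝ Φ) y‖ ≤ K := by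
    intro y hy
    rw [segment_eq_image'] at hy
    obtain ⟨θ, ⟨hθ0, hθ1⟩, rfl⟩ := hy
    simp only [add_sub_cancel_left]
    have e1 : ‖fderiv ℝ (fderiv ℝ Φ) (z + θ • v)‖ = ‖iteratedFDeriv ℝ 2 Φ (z + θ • v)‖ := by
      rw [← norm_iteratedFDeriv_one, norm_iteratedFDeriv_fderiv]
    have e2 : ‖iteratedFDeriv ℝ 2 (fun z => (Φ z : ℂ)) (z + θ • v)‖ =
        ‖iteratedFDeriv ℝ 2 Φ (z + θ • v)‖ :=
      Complex.ofRealLI.norm_iteratedFDeriv_comp_left (n := ∞) hΦ.contDiffAt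
        (WithTop.coe_le_coe.2 (le_top : ((2 : ℕ) : ℕ∞) ≤ ⊤))
    have e3 := hC (z + θ • v)
    have hnm : nm z - L ≤ nm (z + θ • v) := by
      have h3 := Pool.Agent.Helper34.FN.nm_add (z + θ • v) (-(θ • v))
      rw [add_neg_cancel_right, Pool.Agent.Helper34.FN.nm_neg] at h3
      have h4 : Pool.Agent.Helper34.FN.nm (θ • v) ≤ L := by
        have h5 : θ • v = ((θ : ℝ) : ℂ) • Pool.Agent.Helper34.FN.sg j s := by
          ext i
          simp [hv, Pool.Agent.Helper34.FN.sg]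
        rw [h5, Pool.Agent.Helper34.FN.nm_smul, Pool.Agent.Helper34.FN.nm_single,
          Complex.norm_real, Real.norm_of_nonneg hθ0]
        calc θ * ‖s‖ ≤ 1 * ‖s‖ := by gcongr
          _ ≤ L := by rw [one_mul]; exact hsL
      change Pool.Agent.Helper34.FN.nm z - L ≤ Pool.Agent.Helper34.FN.nm (z + θ • v)
      linarith
    rw [e1, ← e2]
    refine e3.trans ?_
    have h6 : (1 : ℤ) - ((2 : ℕ) : ℤ) = -1 := by norm_num
    rw [h6, zpow_neg_one, hK, div_eq_mul_inv]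
    have h7 : 0 < 1 + nm (z + θ • v) := by linarith
    have h8 : (1 + nm (z + θ • v))⁻¹ ≤ (1 + nm z - L)⁻¹ := by
      apply inv_anti₀ hR1
      linarith
    calc C * (1 + nm (z + θ • v))⁻¹ ≤ |C| * (1 + nm (z + θ • v))⁻¹ := by
          gcongr
          exact le_abs_self C
      _ ≤ |C| * (1 + nm z - L)⁻¹ := by gcongr
  have hconv := convex_segment (𝕜 := ℝ) z (z + v)
  have hz1 : z ∈ segment ℝ z (z + v) := left_mem_segment ℝ _ _
  have hz2 : z + v ∈ segment ℝ z (z + v) := right_mem_segment ℝ _ _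
  have hdd : Differentiable ℝ (fderiv ℝ Φ) :=
    (hΦ.fderiv_right (m := 1) (WithTop.coe_le_coe.2
      (le_top : ((1 + 1) : ℕ∞) ≤ ⊤))).differentiable (by norm_num)
  have hd : Differentiable ℝ Φ := hΦ.differentiable (by simp)
  have h1 : ∀ y ∈ segment ℝ z (z + v), ‖fderiv ℝ Φ y - fderiv ℝ Φ z‖ ≤ K * ‖v‖ := by
    intro y hy
    have h9 := hconv.norm_image_sub_le_of_norm_fderiv_le (fun x _ => hdd x) h2 hz1 hy
    refine h9.trans ?_
    gcongr
    rw [segment_eq_image'] at hy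
    obtain ⟨θ, ⟨hθ0, hθ1⟩, rfl⟩ := hy
    simp only [add_sub_cancel_left]
    rw [norm_smul, Real.norm_of_nonneg hθ0]
    calc θ * ‖v‖ ≤ 1 * ‖v‖ := by gcongr
      _ = ‖v‖ := one_mul _
  have h10 := hconv.norm_image_sub_le_of_norm_fderiv_le' (fun x _ => hd x) h1 hz1 hz2
  rw [add_sub_cancel_left] at h10
  rw [Real.norm_eq_abs] at h10
  refine h10.trans ?_
  calc K * ‖v‖ * ‖v‖ ≤ K * L * L := by gcongr
    _ ≤ 1 / 4 := by
      rw [hK, div_mul_eq_mul_div, div_mul_eq_mul_div, div_le_iff₀ hR1]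
      nlinarith

theorem COV (n : ℕ) (P : Pol n) (_hd : 1 ≤ P.totalDegree) (hP : Good P) : ∃ c : ℝ, 0 < c ∧
    ∀ z : V n, 1 ≤ nm z → c * (1 + nm z) ^ P.totalDegree ≤ ‖pv P z‖ ∨
      ∃ j, c * (1 + nm z) ^ (P.totalDegree - 1) ≤
        ‖MvPolynomial.eval z (MvPolynomial.pderiv j (lead P))‖ := by
  classical
  set d := P.totalDegree with hdd
  have hhom : (lead P).IsHomogeneous d := MvPolynomial.homogeneousComponent_isHomogeneous _ _
  set S : Set (V n) := {z | Pool.Agent.Helper34.FN.nm z = 1} with hS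
  let F : V n → ℝ := fun a => ‖MvPolynomial.eval a (lead P)‖ +
    ∑ j, ‖MvPolynomial.eval a (MvPolynomial.pderiv j (lead P))‖
  have hF : Continuous F := by
    refine (MvPolynomial.continuous_eval _).norm.add ?_
    exact continuous_finsetSum _ fun j _ => (MvPolynomial.continuous_eval _).norm
  have hcpt : IsCompact S := Pool.Agent.Helper34.FN.isCompact_nm_eq 1
  rcases S.eq_empty_or_nonempty with hemp | hne
  · refine ⟨1, one_pos, fun z hz => ?_⟩
    exfalso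
    have hz' : 1 ≤ Pool.Agent.Helper34.FN.nm z := hz
    have hz0 : 0 < Pool.Agent.Helper34.FN.nm z := by linarith
    have : ((Pool.Agent.Helper34.FN.nm z : ℂ)⁻¹ • z) ∈ S := by
      rw [hS, Set.mem_setOf_eq, Pool.Agent.Helper34.FN.nm_smul, norm_inv, Complex.norm_real,
        Real.norm_of_nonneg hz0.le, inv_mul_cancel₀ hz0.ne']
    rw [hemp] at this
    exact this
  obtain ⟨a₀, ha₀, hmin⟩ := hcpt.exists_isMinOn hne hF.continuousOn
  have hpos : 0 < F a₀ := by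
    have hane : a₀ ≠ 0 := by
      rintro rfl
      have h1 : Pool.Agent.Helper34.FN.nm (0 : V n) = 1 := ha₀
      rw [Pool.Agent.Helper34.FN.nm_eq] at h1
      simp at h1
    have hnn : ∀ j, 0 ≤ ‖MvPolynomial.eval a₀ (MvPolynomial.pderiv j (lead P))‖ := fun j =>
      norm_nonneg _
    by_cases h0 : pv P a₀ = 0
    · obtain ⟨i, hi⟩ := hP a₀ hane h0
      have h1 : 0 < ∑ j, ‖MvPolynomial.eval a₀ (MvPolynomial.pderiv j (lead P))‖ :=
        Finset.sum_pos' (fun j _ => hnn j) ⟨i, Finset.mem_univ i, norm_pos_iff.2 hi⟩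
      have h2 : 0 ≤ ‖MvPolynomial.eval a₀ (lead P)‖ := norm_nonneg _
      simp only [F]
      linarith
    · have h1 : 0 < ‖MvPolynomial.eval a₀ (lead P)‖ := norm_pos_iff.2 h0
      have h2 : 0 ≤ ∑ j, ‖MvPolynomial.eval a₀ (MvPolynomial.pderiv j (lead P))‖ :=
        Finset.sum_nonneg fun j _ => hnn j
      simp only [F]
      linarith
  set m : ℝ := F a₀ with hm
  set c' : ℝ := m / (n + 1) with hc'
  have hn1 : (0 : ℝ) < n + 1 := by positivity
  have hc'0 : 0 < c' := div_pos hpos hn1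
  refine ⟨c' / 2 ^ d, by positivity, fun z hz => ?_⟩
  have hz' : 1 ≤ Pool.Agent.Helper34.FN.nm z := hz
  set ρ : ℝ := nm z with hρ
  have hρ' : Pool.Agent.Helper34.FN.nm z = ρ := rfl
  have hρ0 : 0 < ρ := by linarith
  have hρc : (ρ : ℂ) ≠ 0 := by exact_mod_cast hρ0.ne'
  set a : V n := (ρ : ℂ)⁻¹ • z with ha
  have haS : a ∈ S := by
    rw [hS, Set.mem_setOf_eq, ha, Pool.Agent.Helper34.FN.nm_smul, norm_inv, Complex.norm_real,
      Real.norm_of_nonneg hρ0.le, hρ', inv_mul_cancel₀ hρ0.ne']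
  have hza : z = (ρ : ℂ) • a := by rw [ha, smul_smul, mul_inv_cancel₀ hρc, one_smul]
  have hFa : m ≤ F a := hmin haS
  have hsc : ∀ (φ : MvPolynomial (Fin n) ℂ) (e : ℕ), φ.IsHomogeneous e →
      ‖MvPolynomial.eval z φ‖ = ρ ^ e * ‖MvPolynomial.eval a φ‖ := fun φ e hφ => by
    rw [hza, Pool.Agent.Helper34.FN.eval_smul hφ, norm_mul, norm_pow, Complex.norm_real,
      Real.norm_of_nonneg hρ0.le]
  have hpow : ∀ e : ℕ, e ≤ d → c' / 2 ^ d * (1 + ρ) ^ e ≤ c' * ρ ^ e := fun e he => by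
    have h1 : (1 + ρ) ^ e ≤ (2 * ρ) ^ e := by
      apply pow_le_pow_left₀ (by linarith)
      linarith
    have h2 : (2 : ℝ) ^ e ≤ 2 ^ d := pow_le_pow_right₀ (by norm_num) he
    rw [mul_pow] at h1
    rw [div_mul_eq_mul_div, div_le_iff₀ (by positivity)]
    calc c' * (1 + ρ) ^ e ≤ c' * (2 ^ e * ρ ^ e) := by gcongr
      _ ≤ c' * (2 ^ d * ρ ^ e) := by gcongr
      _ = c' * ρ ^ e * 2 ^ d := by ring
  by_cases hbig : c' ≤ ‖MvPolynomial.eval a (lead P)‖
  · left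
    change _ ≤ ‖MvPolynomial.eval z (lead P)‖
    rw [hsc _ d hhom]
    calc c' / 2 ^ d * (1 + ρ) ^ d ≤ c' * ρ ^ d := hpow d le_rfl
      _ ≤ ‖MvPolynomial.eval a (lead P)‖ * ρ ^ d := by gcongr
      _ = _ := mul_comm _ _
  · right
    rw [not_le] at hbig
    have hex : ∃ j, c' ≤ ‖MvPolynomial.eval a (MvPolynomial.pderiv j (lead P))‖ := by
      by_contra hcon
      push Not at hcon
      have h1 : ∑ j : Fin n, ‖MvPolynomial.eval a (MvPolynomial.pderiv j (lead P))‖ ≤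
          ∑ _j : Fin n, c' := Finset.sum_le_sum fun j _ => (hcon j).le
      rw [Finset.sum_const, Finset.card_univ, Fintype.card_fin, nsmul_eq_mul] at h1
      have h2 : F a < c' + n * c' := by
        simp only [F]
        linarith
      have h3 : c' + n * c' = m := by
        rw [hc']
        field_simp
        ring
      linarith
    obtain ⟨j, hj⟩ := hex
    refine ⟨j, ?_⟩
    rw [hsc _ (d - 1) hhom.pderiv]
    calc c' / 2 ^ d * (1 + ρ) ^ (d - 1) ≤ c' * ρ ^ (d - 1) := hpow _ (Nat.sub_le _ _)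
      _ ≤ ‖MvPolynomial.eval a (MvPolynomial.pderiv j (lead P))‖ * ρ ^ (d - 1) := by gcongr
      _ = _ := mul_comm _ _

end Pool.Agent.Helper14.FN
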